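import Pool.Agent.ThW4.Fin

/-! # The group `PSp_4(3)` -/

namespace ThW4
open Matrix Polynomial Module ThS

section general

variable {K : Type*} [Field K] {n : ℕ}

/-- the condition `syl` for the inverse -/
theorem syl_inv {B : (Matrix (Fin n) (Fin n) K)ˣ}
    (hs : ∀ Z : Matrix (Fin n) (Fin n) K,
      (B : Matrix (Fin n) (Fin n) K)ᵀ * Z * (B : Matrix (Fin n) (Fin n) K) = Z → Z = 0)
    (Z : Matrix (Fin n) (Fin n) K)
    (hZ : ((B⁻¹ : (Matrix (Fin n) (Fin n) K)ˣ) : Matrix (Fin n) (Fin n) K)ᵀ * Z *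
      ((B⁻¹ : (Matrix (Fin n) (Fin n) K)ˣ) : Matrix (Fin n) (Fin n) K) = Z) : Z = 0 := by
  have hBB' : ((B⁻¹ : (Matrix (Fin n) (Fin n) K)ˣ) : Matrix (Fin n) (Fin n) K) *
      (B : Matrix (Fin n) (Fin n) K) = 1 := Units.inv_mul B
  have hBT : (B : Matrix (Fin n) (Fin n) K)ᵀ *
      ((B⁻¹ : (Matrix (Fin n) (Fin n) K)ˣ) : Matrix (Fin n) (Fin n) K)ᵀ = 1 := by
    rw [← Matrix.transpose_mul, hBB', Matrix.transpose_one]
  apply hs
  nth_rewrite 1 [← hZ]
  calc (B : Matrix (Fin n) (Fin n) K)ᵀ * (((B⁻¹ : (Matrix (Fin n) (Fin n) K)ˣ) : Matrix (Fin n) (Fin n) K)ᵀ * Z *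
          ((B⁻¹ : (Matrix (Fin n) (Fin n) K)ˣ) : Matrix (Fin n) (Fin n) K)) * (B : Matrix (Fin n) (Fin n) K) =
        ((B : Matrix (Fin n) (Fin n) K)ᵀ * ((B⁻¹ : (Matrix (Fin n) (Fin n) K)ˣ) : Matrix (Fin n) (Fin n) K)ᵀ) * Z *
          (((B⁻¹ : (Matrix (Fin n) (Fin n) K)ˣ) : Matrix (Fin n) (Fin n) K) * (B : Matrix (Fin n) (Fin n) K)) := by
        simp only [Matrix.mul_assoc]
    _ = Z := by rw [hBT, hBB', Matrix.one_mul, Matrix.mul_one]

/-- the equation `d B = Bᵀ d` for the inverse -/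
theorem real_inv {B d : (Matrix (Fin n) (Fin n) K)ˣ}
    (hd : (d : Matrix (Fin n) (Fin n) K) * B = (B : Matrix (Fin n) (Fin n) K)ᵀ * d) :
    (d : Matrix (Fin n) (Fin n) K) * ((B⁻¹ : (Matrix (Fin n) (Fin n) K)ˣ) : Matrix (Fin n) (Fin n) K) =
      ((B⁻¹ : (Matrix (Fin n) (Fin n) K)ˣ) : Matrix (Fin n) (Fin n) K)ᵀ * d := by
  have hBB : (B : Matrix (Fin n) (Fin n) K) *
      ((B⁻¹ : (Matrix (Fin n) (Fin n) K)ˣ) : Matrix (Fin n) (Fin n) K) = 1 := Units.mul_inv B
  have hBT : ((B⁻¹ : (Matrix (Fin n) (Fin n) K)ˣ) : Matrix (Fin n) (Fin n) K)ᵀ *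
      (B : Matrix (Fin n) (Fin n) K)ᵀ = 1 := by
    rw [← Matrix.transpose_mul, hBB, Matrix.transpose_one]
  calc (d : Matrix (Fin n) (Fin n) K) * ((B⁻¹ : (Matrix (Fin n) (Fin n) K)ˣ) : Matrix (Fin n) (Fin n) K) =
        (((B⁻¹ : (Matrix (Fin n) (Fin n) K)ˣ) : Matrix (Fin n) (Fin n) K)ᵀ * (B : Matrix (Fin n) (Fin n) K)ᵀ) *
          (d : Matrix (Fin n) (Fin n) K) * ((B⁻¹ : (Matrix (Fin n) (Fin n) K)ˣ) : Matrix (Fin n) (Fin n) K) := by
        rw [hBT, Matrix.one_mul]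
    _ = ((B⁻¹ : (Matrix (Fin n) (Fin n) K)ˣ) : Matrix (Fin n) (Fin n) K)ᵀ * ((B : Matrix (Fin n) (Fin n) K)ᵀ *
          (d : Matrix (Fin n) (Fin n) K)) * ((B⁻¹ : (Matrix (Fin n) (Fin n) K)ˣ) : Matrix (Fin n) (Fin n) K) := by
        simp only [Matrix.mul_assoc]
    _ = _ := by
        rw [← hd]
        simp only [Matrix.mul_assoc]
        rw [hBB, Matrix.mul_one]

/-- As `ThS.main_blockS` with `B` in place of `B⁻¹`. -/
theorem main_blockS2 [Finite K] {B d : (Matrix (Fin n) (Fin n) K)ˣ}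
    (hs : ∀ Z : Matrix (Fin n) (Fin n) K,
      (B : Matrix (Fin n) (Fin n) K)ᵀ * Z * (B : Matrix (Fin n) (Fin n) K) = Z → Z = 0)
    (hd : (d : Matrix (Fin n) (Fin n) K) * B = (B : Matrix (Fin n) (Fin n) K)ᵀ * d)
    (c : Matrix (Fin n) (Fin n) K) (hc : cᵀ = c) (b : Matrix (Fin n) (Fin n) K) (hb : bᵀ = b)
    {u : (Matrix (Fin n) (Fin n) K)ˣ} {S T : Matrix (Fin n) (Fin n) K} (hS : IsUnit S.det)
    (hT : IsUnit T.det) (hST : S * (u : Matrix (Fin n) (Fin n) K) * S⁻¹ =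
      T * (B : Matrix (Fin n) (Fin n) K) * T⁻¹ * (B : Matrix (Fin n) (Fin n) K)) :
    ∃ r r' : symplecticGroup (Fin n) K,
      lo c hc * mS K n u * up b hb = r * mS K n B * r⁻¹ * (r' * mS K n B * r'⁻¹) := by
  obtain ⟨Su, hSu⟩ := (Matrix.isUnit_iff_isUnit_det S).2 hS
  obtain ⟨Tu, hTu⟩ := (Matrix.isUnit_iff_isUnit_det T).2 hT
  have hu : Su * u * Su⁻¹ = Tu * B * Tu⁻¹ * B := by
    apply Units.ext
    rw [Units.val_mul, Units.val_mul, Units.val_mul, Units.val_mul, Units.val_mul,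
      Matrix.coe_units_inv, Matrix.coe_units_inv, hSu, hTu]
    exact hST
  have hu2 : u = ((Su⁻¹ * Tu) * B * (Su⁻¹ * Tu)⁻¹) * (Su⁻¹ * B * (Su⁻¹)⁻¹) := by
    calc u = Su⁻¹ * (Su * u * Su⁻¹) * Su := by group
      _ = Su⁻¹ * (Tu * B * Tu⁻¹ * B) * Su := by rw [hu]
      _ = _ := by group
  obtain ⟨x, hx⟩ : ∃ x, x = mS K n B := ⟨_, rfl⟩
  obtain ⟨α, hα⟩ : ∃ α, α = mS K n (Su⁻¹ * Tu) := ⟨_, rfl⟩
  obtain ⟨γ, hγ⟩ : ∃ γ, γ = mS K n Su⁻¹ := ⟨_, rfl⟩
  have hmu : mS K n u = (α * x * α⁻¹) * (γ * x * γ⁻¹) := by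
    rw [hu2, hα, hγ, hx]
    simp only [map_mul, map_inv]
  rw [hmu, ← hx]
  -- the first factor
  obtain ⟨c', hc', h1⟩ := mS_lo (Su⁻¹ * Tu)⁻¹ c hc
  rw [map_inv, ← hα, inv_inv] at h1
  obtain ⟨v, hv⟩ := conj_lowS hs c' hc'
  rw [← hx] at hv
  -- the second factor
  obtain ⟨b', hb', h2⟩ := mS_up (Su⁻¹)⁻¹ b hb
  rw [map_inv, ← hγ, inv_inv] at h2
  obtain ⟨t0, ht0, -⟩ := seed_realS hd
  rw [← hx] at ht0
  obtain ⟨t, ht1, ht2⟩ := seed_realS (real_inv hd)
  rw [map_inv, ← hx, inv_inv] at ht1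
  obtain ⟨c2, hc2, h3⟩ := ht2 b' hb'
  obtain ⟨c3, hc3, h4⟩ := mS_lo B⁻¹ c2 hc2
  rw [map_inv, ← hx, inv_inv] at h4
  obtain ⟨v', hv'⟩ := conj_lowS (syl_inv hs) c3 hc3
  rw [map_inv, ← hx] at hv'
  refine ⟨α * v, γ * t * v' * t0, ?_⟩
  have e1 : lo c hc * (α * x * α⁻¹) = α * v * x * (α * v)⁻¹ := by
    calc lo c hc * (α * x * α⁻¹) = α * ((α⁻¹ * lo c hc * α) * x) * α⁻¹ := by group
      _ = α * (v * x * v⁻¹) * α⁻¹ := by rw [h1, hv]
      _ = _ := by group
  have e2 : (γ * x * γ⁻¹) * up b hb = γ * t * v' * t0 * x * (γ * t * v' * t0)⁻¹ := by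
    calc (γ * x * γ⁻¹) * up b hb = γ * (x * (γ⁻¹ * up b hb * γ)) * γ⁻¹ := by group
      _ = γ * (t * x⁻¹ * t⁻¹ * up b' hb') * γ⁻¹ := by rw [h2, ht1]
      _ = γ * (t * (x⁻¹ * (t⁻¹ * up b' hb' * t) * x * x⁻¹) * t⁻¹) * γ⁻¹ := by group
      _ = γ * (t * (v' * x⁻¹ * v'⁻¹) * t⁻¹) * γ⁻¹ := by rw [h3, h4, hv']
      _ = γ * (t * (v' * (t0 * x * t0⁻¹) * v'⁻¹) * t⁻¹) * γ⁻¹ := by rw [ht0]
      _ = _ := by group
  calc lo c hc * (α * x * α⁻¹ * (γ * x * γ⁻¹)) * up b hb
      = (lo c hc * (α * x * α⁻¹)) * ((γ * x * γ⁻¹) * up b hb) := by group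
    _ = _ := by rw [e1, e2]

/-- the factorization property with `B` in place of `B⁻¹` -/
def Fac2 (f : K[X]) (n : ℕ) (a : Matrix (Fin n) (Fin n) K) : Prop :=
  ∃ S T : Matrix (Fin n) (Fin n) K, IsUnit S.det ∧ IsUnit T.det ∧
    S * a * S⁻¹ = T * ThU.comp f n * T⁻¹ * ThU.comp f n

theorem Fac2.unit {f : K[X]} {a : Matrix (Fin n) (Fin n) K} (hC : IsUnit (ThU.comp f n).det)
    (h : Fac2 f n a) : IsUnit a.det := by
  obtain ⟨S, T, hS, hT, h⟩ := h
  have h1 := congrArg Matrix.det h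
  have e : (S * a * S⁻¹).det = a.det := by
    rw [det_mul, det_mul, mul_comm S.det, mul_assoc, ← det_mul, mul_nonsing_inv _ hS, det_one, mul_one]
  rw [e] at h1
  rw [h1, det_mul, det_mul, det_mul]
  exact ((hT.mul hC).mul (isUnit_nonsing_inv_det _ hT)).mul hC

/-- from the block to the group, for both forms of the factorization -/
theorem prod_of_sysS2 [Finite K] {f : K[X]} {B d : (Matrix (Fin n) (Fin n) K)ˣ}
    (hf : (B : Matrix (Fin n) (Fin n) K) = ThU.comp f n)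
    (hs : ∀ Z : Matrix (Fin n) (Fin n) K,
      (B : Matrix (Fin n) (Fin n) K)ᵀ * Z * (B : Matrix (Fin n) (Fin n) K) = Z → Z = 0)
    (hd : (d : Matrix (Fin n) (Fin n) K) * B = (B : Matrix (Fin n) (Fin n) K)ᵀ * d)
    (g : symplecticGroup (Fin n) K) {a : Matrix (Fin n) (Fin n) K}
    (h : (hS K n).Sys ⊤ (Matrix.mulVecLin (g : Matrix (Fin n ⊕ Fin n) (Fin n ⊕ Fin n) K)) a)
    (hfac : Fac f n a ∨ Fac2 f n a) : ∃ r r' : symplecticGroup (Fin n) K,
      g = r * mS K n B * r⁻¹ * (r' * mS K n B * r'⁻¹) := by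
  have hC : IsUnit (ThU.comp f n).det := by
    rw [← hf]
    exact (Matrix.isUnit_iff_isUnit_det _).1 B.isUnit
  obtain ⟨P, hP⟩ := frameS g h
  have hau : IsUnit a.det := hfac.elim (fun h => h.unit hC) fun h => h.unit hC
  set u : (Matrix (Fin n) (Fin n) K)ˣ := a.nonsingInvUnit hau with hu
  have hua : (u : Matrix (Fin n) (Fin n) K) = a := rfl
  obtain ⟨c, hc, b, hb, hg⟩ := lduS (P⁻¹ * g * P) (a := u) hP
  have key : ∃ r r' : symplecticGroup (Fin n) K,
      lo c hc * mS K n u * up b hb = r * mS K n B * r⁻¹ * (r' * mS K n B * r'⁻¹) := by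
    rcases hfac with hfac | hfac
    · obtain ⟨S, T, hS, hT, hST⟩ := hfac
      rw [← hua, ← hf] at hST
      exact main_blockS hs hd c hc b hb hS hT hST
    · obtain ⟨S, T, hS, hT, hST⟩ := hfac
      rw [← hua, ← hf] at hST
      exact main_blockS2 hs hd c hc b hb hS hT hST
  obtain ⟨r, r', hr⟩ := key
  rw [hr] at hg
  refine ⟨P * r, P * r', ?_⟩
  have e : g = P * (P⁻¹ * g * P) * P⁻¹ := by group
  rw [e, hg]
  group

end general

section three

variable {K : Type*} [Field K]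

/-- the field with three elements -/
theorem el3 (hK : Nat.card K = 3) : (3 : K) = 0 ∧ ∀ t : K, t = 0 ∨ t = 1 ∨ t = -1 := by
  classical
  have : Finite K := Nat.finite_of_card_ne_zero (by omega)
  have : Fintype K := Fintype.ofFinite K
  have hc : Fintype.card K = 3 := by rw [← Nat.card_eq_fintype_card]; exact hK
  have h3 : (3 : K) = 0 := by
    have h1 := Nat.cast_card_eq_zero K
    rw [hc] at h1
    exact_mod_cast h1
  refine ⟨h3, fun t => ?_⟩
  have h1 := FiniteField.pow_card t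
  rw [hc] at h1
  have h2 : t * (t - 1) * (t + 1) = 0 := by linear_combination h1
  rcases mul_eq_zero.1 h2 with h2 | h2
  · rcases mul_eq_zero.1 h2 with h2 | h2
    · exact Or.inl h2
    · exact Or.inr (Or.inl (by linear_combination h2))
  · exact Or.inr (Or.inr (by linear_combination h2))

variable (K) in
/-- the polynomial `X ^ 2 + X - 1` -/
noncomputable def f3 : K[X] := X ^ 2 + X - 1

theorem f3_monic : (f3 K).Monic := by
  unfold f3
  monicity!

theorem f3_deg : (f3 K).natDegree = 2 := by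
  unfold f3
  compute_degree!

theorem f3_c0 : (f3 K).coeff 0 = -1 := by
  unfold f3
  simp

theorem f3_c1 : (f3 K).coeff 1 = 1 := by
  unfold f3
  simp [coeff_X, coeff_one]

theorem f3_irr (hK : Nat.card K = 3) : Irreducible (f3 K) := by
  obtain ⟨h3, hel⟩ := el3 hK
  have h1 : (1 : K) ≠ 0 := one_ne_zero
  refine (f3_monic.irreducible_iff_roots_eq_zero_of_degree_le_three (by rw [f3_deg]) (by rw [f3_deg]; norm_num)).2 ?_
  rw [Multiset.eq_zero_iff_forall_notMem]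
  intro t ht
  have h4 := isRoot_of_mem_roots ht
  have h5 : t ^ 2 + t - 1 = 0 := by
    have h6 : eval t (f3 K) = 0 := h4
    unfold f3 at h6
    simpa using h6
  rcases hel t with rfl | rfl | rfl
  · apply h1
    linear_combination -h5
  · apply h1
    linear_combination h5
  · apply h1
    linear_combination -h5

variable (K) in
/-- the seed -/
def B3 : (Matrix (Fin 2) (Fin 2) K)ˣ where
  val := !![0, 1; 1, -1]
  inv := !![1, 1; 1, 0]
  val_inv := by
    rw [Matrix.one_fin_two]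
    ext i j
    fin_cases i <;> fin_cases j <;> simp [Matrix.mul_apply, Fin.sum_univ_two]
  inv_val := by
    rw [Matrix.one_fin_two]
    ext i j
    fin_cases i <;> fin_cases j <;> simp [Matrix.mul_apply, Fin.sum_univ_two]

theorem B3_val : (B3 K : Matrix (Fin 2) (Fin 2) K) = !![0, 1; 1, -1] := rfl

theorem B3_comp : (B3 K : Matrix (Fin 2) (Fin 2) K) = ThU.comp (f3 K) 2 := by
  rw [comp_two, f3_c0, f3_c1, B3_val, neg_neg]

theorem B3_syl (h2 : (2 : K) ≠ 0) (Z : Matrix (Fin 2) (Fin 2) K)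
    (hZ : (B3 K : Matrix (Fin 2) (Fin 2) K)ᵀ * Z * (B3 K : Matrix (Fin 2) (Fin 2) K) = Z) : Z = 0 := by
  rw [B3_val] at hZ
  have e := fun i j => congrFun (congrFun hZ i) j
  have e00 := e 0 0
  have e01 := e 0 1
  have e10 := e 1 0
  have e11 := e 1 1
  simp [Matrix.mul_apply, Fin.sum_univ_two] at e00 e01 e10 e11
  have h11 : Z 1 1 = 0 := by
    have h : 2 * Z 1 1 = 0 := by linear_combination -e01 - e10
    exact (mul_eq_zero.1 h).resolve_left h2
  have h00 : Z 0 0 = 0 := by rw [← e00, h11]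
  have h01 : Z 0 1 = Z 1 0 := by
    rw [h11] at e01
    linear_combination -e01
  have h10 : Z 1 0 = 0 := by
    have h : 2 * Z 1 0 = 0 := by
      rw [h11, h00, h01] at e11
      linear_combination -e11
    exact (mul_eq_zero.1 h).resolve_left h2
  ext i j
  fin_cases i <;> fin_cases j
  · exact h00
  · show Z 0 1 = 0
    rw [h01, h10]
  · exact h10
  · exact h11

theorem B3_real : ((1 : (Matrix (Fin 2) (Fin 2) K)ˣ) : Matrix (Fin 2) (Fin 2) K) * (B3 K : Matrix (Fin 2) (Fin 2) K) =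
    (B3 K : Matrix (Fin 2) (Fin 2) K)ᵀ * ((1 : (Matrix (Fin 2) (Fin 2) K)ˣ) : Matrix (Fin 2) (Fin 2) K) := by
  rw [Units.val_one, Matrix.one_mul, Matrix.mul_one, B3_val]
  ext i j
  fin_cases i <;> fin_cases j <;> rfl

/-- a transvection block is a product of a conjugate of `B` and `B` -/
theorem fac2_tr (h3 : (3 : K) = 0) (a : Matrix (Fin 2) (Fin 2) K) (h0 : a 0 0 = 1) (h1 : a 1 1 = 1) (h10 : a 1 0 = 0)
    (h01 : a 0 1 ≠ 0) : Fac2 (f3 K) 2 a := by
  have hd : a.det = 1 := by rw [det_fin_two, h0, h1, h10]; ring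
  have ht : a.trace = -1 := by
    rw [trace_fin_two, h0, h1]
    linear_combination h3
  obtain ⟨P, hP, haP⟩ := sim2 a (Or.inl h01)
  rw [hd, ht] at haP
  obtain ⟨M, hM⟩ : ∃ M : Matrix (Fin 2) (Fin 2) K, M = !![-1, 1; -1, 0] := ⟨_, rfl⟩
  have hMd : M.det = 1 := by rw [hM, det_fin_two_of]; ring
  have hMt : M.trace = -1 := by rw [hM, trace_fin_two_of]; ring
  obtain ⟨Q, hQ, hMQ⟩ := sim2 M (Or.inl (by rw [hM]; exact one_ne_zero))
  rw [hMd, hMt] at hMQ
  obtain ⟨T, hT⟩ : ∃ T : Matrix (Fin 2) (Fin 2) K, T = !![1, 0; 0, -1] := ⟨_, rfl⟩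
  have hTd : IsUnit T.det := by
    rw [hT, det_fin_two_of, isUnit_iff_ne_zero]
    intro h
    apply one_ne_zero (α := K)
    linear_combination -h
  have hTT : T⁻¹ = T := by
    apply inv_eq_right_inv
    rw [hT, Matrix.one_fin_two]
    ext i j
    fin_cases i <;> fin_cases j <;> simp [Matrix.mul_apply, Fin.sum_univ_two]
  refine ⟨Q * P⁻¹, T, ?_, hTd, ?_⟩
  · rw [det_mul]
    exact hQ.mul (isUnit_nonsing_inv_det _ hP)
  · have e1 : P⁻¹ * a * P = !![0, -1; 1, -1] := by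
      rw [Matrix.mul_assoc, haP, nonsing_inv_mul_cancel_left _ _ hP]
    have e2 : Q * P⁻¹ * a * (Q * P⁻¹)⁻¹ = M := by
      rw [Matrix.mul_inv_rev, nonsing_inv_nonsing_inv _ hP]
      calc Q * P⁻¹ * a * (P * Q⁻¹) = Q * (P⁻¹ * a * P) * Q⁻¹ := by
            simp only [Matrix.mul_assoc]
        _ = M := by rw [e1, ← hMQ, mul_nonsing_inv_cancel_right _ _ hQ]
    rw [e2, hTT, ← B3_comp, B3_val, hT, hM]
    ext i j
    fin_cases i <;> fin_cases j <;> simp [Matrix.mul_apply, Fin.sum_univ_two]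

/-- the block of an isometry of a space of dimension 4 over the field with three elements, up to sign -/
theorem blocks3 (hK : Nat.card K = 3) (g : symplecticGroup (Fin 2) K) :
    ∃ a : Matrix (Fin 2) (Fin 2) K, (Fac (f3 K) 2 a ∨ Fac2 (f3 K) 2 a) ∧
      ((hS K 2).Sys ⊤ (Matrix.mulVecLin (g : Matrix (Fin 2 ⊕ Fin 2) (Fin 2 ⊕ Fin 2) K)) a ∨
      (hS K 2).Sys ⊤ (Matrix.mulVecLin ((negS K 2 * g : symplecticGroup (Fin 2) K) :
        Matrix (Fin 2 ⊕ Fin 2) (Fin 2 ⊕ Fin 2) K)) a) := by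
  obtain ⟨k3, hel⟩ := el3 hK
  have h2 : (2 : K) ≠ 0 := by
    intro h
    apply one_ne_zero (α := K)
    linear_combination k3 - h
  have hfin : Finite K := Nat.finite_of_card_ne_zero (by omega)
  have hfm : (f3 K).Monic := f3_monic
  have hfi : Irreducible (f3 K) := f3_irr hK
  have hfn : (f3 K).natDegree = 2 := f3_deg
  have hf0 : (f3 K).coeff 0 ≠ 0 := by
    rw [f3_c0]
    exact neg_ne_zero.2 one_ne_zero
  have hC : IsUnit (ThU.comp (f3 K) 2).det := by
    rw [← B3_comp]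
    exact (Matrix.isUnit_iff_isUnit_det _).1 (B3 K).isUnit
  set G := Matrix.mulVecLin (g : Matrix (Fin 2 ⊕ Fin 2) (Fin 2 ⊕ Fin 2) K) with hG
  have hGi : (hS K 2).Iso ⊤ G := sp_iso g
  have hV : (hS K 2).ND ⊤ := hS_ND
  have hfr : finrank K (⊤ : Submodule K (Fin 2 ⊕ Fin 2 → K)) = 4 := by
    rw [finrank_top, Module.finrank_fintype_fun_eq_card, Fintype.card_sum, Fintype.card_fin]
  have hneg := negS_mul g
  by_cases hw : ∃ w ∈ (⊤ : Submodule K (Fin 2 ⊕ Fin 2 → K)), (hS K 2).h w (G w) ≠ 0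
  · obtain ⟨w, hw, hz⟩ := hw
    rcases four (hS K 2) hV hfr hGi hw hz (l := 1) one_ne_zero with ⟨v, v', hv, ha, hd⟩ | ⟨a, ha, v, v', hv, hb⟩
    · obtain ⟨a, hae⟩ : ∃ a : Matrix (Fin 2) (Fin 2) K, a = Matrix.of fun i j => (hS K 2).h (v' i) (G (v j)) := ⟨_, rfl⟩
      have a00 : a 0 0 = 1 := by
        rw [hae, of_apply, hd]
        exact inv_one
      have a11 : a 1 1 = 1 := by
        rw [hae, of_apply, hd]
        rfl
      have a10 : a 1 0 = 0 := by
        rw [hae, of_apply, ha 1 0 (by decide)]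
      refine ⟨a, ?_, Or.inl ⟨v, v', hv, fun i j => by rw [hae, of_apply]⟩⟩
      by_cases a01 : a 0 1 = 0
      · left
        have e1 : a = 1 := by
          ext i j
          fin_cases i <;> fin_cases j
          · exact a00
          · exact a01
          · exact a10
          · exact a11
        rw [e1]
        exact fac_one hC
      · right
        exact fac2_tr k3 a a00 a11 a10 a01
    · refine ⟨1, Or.inl (fac_one hC), ?_⟩
      rcases mul_self_eq_one_iff.1 ha with rfl | rfl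
      · left
        rw [one_smul] at hb
        exact ⟨v, v', hv, hb⟩
      · right
        refine ⟨v, v', hv, fun i j => ?_⟩
        rw [hneg, map_neg, hb, neg_smul, one_smul, Matrix.neg_apply, neg_neg]
  · -- involutions
    push Not at hw
    obtain ⟨r, s, w, w', v, v', hrs, hh, h1, h1', h3, h3'⟩ := inv_sys _ h2 hV hGi hw
    rw [hfr] at hrs
    have hrs' : r + s = 2 := by omega
    let e : Fin r ⊕ Fin s ≃ Fin 2 := finSumFinEquiv.trans (finCongr hrs')
    have hS1 : (hS K 2).Sys ⊤ G (diagonal (Sum.elim (fun _ : Fin r => (1 : K)) fun _ : Fin s => -1)) := by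
      refine ⟨Sum.elim w v, Sum.elim w' v', hh, fun i j => ?_⟩
      rcases j with j | j
      · rw [Sum.elim_inl, h1, ← Sum.elim_inl w v j, hh.dual, diagonal_apply]
        by_cases hij : i = Sum.inl j
        · rw [if_pos hij, if_pos hij, hij, Sum.elim_inl]
        · rw [if_neg hij, if_neg hij]
      · rw [Sum.elim_inr, h3, map_neg, ← Sum.elim_inr w v j, hh.dual, diagonal_apply]
        by_cases hij : i = Sum.inr j
        · rw [if_pos hij, if_pos hij, hij, Sum.elim_inr]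
        · rw [if_neg hij, if_neg hij, neg_zero]
    have hS2 : (hS K 2).Sys ⊤ (Matrix.mulVecLin ((negS K 2 * g : symplecticGroup (Fin 2) K) :
        Matrix (Fin 2 ⊕ Fin 2) (Fin 2 ⊕ Fin 2) K))
        (diagonal (Sum.elim (fun _ : Fin r => (-1 : K)) fun _ : Fin s => 1)) := by
      refine ⟨Sum.elim w v, Sum.elim w' v', hh, fun i j => ?_⟩
      rw [hneg, map_neg]
      rcases j with j | j
      · show -(hS K 2).h _ (G (Sum.elim w v (Sum.inl j))) = _
        rw [Sum.elim_inl, h1, ← Sum.elim_inl w v j, hh.dual, diagonal_apply]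
        by_cases hij : i = Sum.inl j
        · rw [if_pos hij, if_pos hij, hij, Sum.elim_inl]
        · rw [if_neg hij, if_neg hij, neg_zero]
      · show -(hS K 2).h _ (G (Sum.elim w v (Sum.inr j))) = _
        rw [Sum.elim_inr, h3, map_neg, neg_neg, ← Sum.elim_inr w v j, hh.dual, diagonal_apply]
        by_cases hij : i = Sum.inr j
        · rw [if_pos hij, if_pos hij, hij, Sum.elim_inr]
        · rw [if_neg hij, if_neg hij]
    have hone : ∀ d : Fin r ⊕ Fin s → K, (∀ i, d i = 1) → Matrix.reindex e e (diagonal d) = 1 :=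
      fun d hd => by
        have : d = 1 := funext hd
        rw [this, reindex_apply, submatrix_diagonal_equiv]
        exact diagonal_one
    by_cases hs0 : s = 0
    · subst hs0
      refine ⟨_, ?_, Or.inl (hS1.reindex e)⟩
      rw [hone _ (fun i => by rcases i with i | i; · rfl
                              · exact i.elim0)]
      exact Or.inl (fac_one hC)
    by_cases hr0 : r = 0
    · subst hr0
      refine ⟨_, ?_, Or.inr (hS2.reindex e)⟩
      rw [hone _ (fun i => by rcases i with i | i; · exact i.elim0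
                              · rfl)]
      exact Or.inl (fac_one hC)
    obtain rfl : r = 0 + 1 := by omega
    obtain rfl : s = 0 + 1 := by omega
    refine ⟨_, ?_, Or.inl ((inv_odd (hS K 2) h2 hh h1 h1' h3 h3').reindex
      (Equiv.sumEmpty (Fin 2) (Fin 0 ⊕ Fin 0)))⟩
    have e1 : Matrix.reindex (Equiv.sumEmpty (Fin 2) (Fin 0 ⊕ Fin 0)) (Equiv.sumEmpty (Fin 2) (Fin 0 ⊕ Fin 0))
        (fromBlocks (a2 K) 0 0 (diagonal (Sum.elim (fun _ => 1) (fun _ => -1)))) = a2 K := by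
      ext i j
      rfl
    rw [e1]
    exact Or.inl (fac_tr0 h2 hfm hfi hfn hf0)

/-- the field with three elements -/
theorem main_three (hK : Nat.card K = 3) :
    ∃ x : symplecticGroup (Fin 2) K, ∀ g : symplecticGroup (Fin 2) K,
      ∃ z : symplecticGroup (Fin 2) K, (∀ y : symplecticGroup (Fin 2) K, z * y = y * z) ∧
        ∃ r r' : symplecticGroup (Fin 2) K, g = z * (r * x * r⁻¹ * (r' * x * r'⁻¹)) := by
  obtain ⟨k3, -⟩ := el3 hK
  have h2 : (2 : K) ≠ 0 := by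
    intro h
    apply one_ne_zero (α := K)
    linear_combination k3 - h
  have hfin : Finite K := Nat.finite_of_card_ne_zero (by omega)
  refine ⟨mS K 2 (B3 K), fun g => ?_⟩
  obtain ⟨a, hfac, ha | ha⟩ := blocks3 hK g
  · obtain ⟨r, r', h⟩ := prod_of_sysS2 B3_comp (B3_syl h2) B3_real g ha hfac
    exact ⟨1, fun y => by rw [one_mul, mul_one], r, r', by rw [one_mul]; exact h⟩
  · obtain ⟨r, r', h⟩ := prod_of_sysS2 B3_comp (B3_syl h2) B3_real _ ha hfac
    refine ⟨negS K 2, negS_comm, r, r', ?_⟩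
    rw [← h, ← mul_assoc, negS_sq, one_mul]

/-- `PSp_4(3)`: the conclusion for the quotient by the center. -/
theorem quotS_three (hK : Nat.card K = 3) :
    ∃ g : symplecticGroup (Fin 2) K ⧸ Subgroup.center (symplecticGroup (Fin 2) K),
      ∀ z : symplecticGroup (Fin 2) K ⧸ Subgroup.center (symplecticGroup (Fin 2) K),
        ∃ x y : symplecticGroup (Fin 2) K ⧸ Subgroup.center (symplecticGroup (Fin 2) K),
          IsConj g x ∧ IsConj g y ∧ x * y = z := by
  obtain ⟨x, h⟩ := main_three (K := K) hK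
  refine ⟨QuotientGroup.mk x, fun g => ?_⟩
  obtain ⟨g, rfl⟩ := QuotientGroup.mk_surjective g
  obtain ⟨z, hz, r, r', hg⟩ := h g
  refine ⟨QuotientGroup.mk (r * x * r⁻¹), QuotientGroup.mk (r' * x * r'⁻¹), ?_, ?_, ?_⟩
  · rw [isConj_iff]
    exact ⟨QuotientGroup.mk r, rfl⟩
  · rw [isConj_iff]
    exact ⟨QuotientGroup.mk r', rfl⟩
  · have hz' : z ∈ Subgroup.center (symplecticGroup (Fin 2) K) := by
      rw [Subgroup.mem_center_iff]
      intro y
      exact (hz y).symm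
    rw [← QuotientGroup.mk_mul]
    refine QuotientGroup.eq.2 ?_
    rw [hg, hz, inv_mul_cancel_left]
    exact hz'

end three

/-- All symplectic groups of dimension at least 4, except `Sp_4(2)`. -/
theorem quotS_four' {K : Type*} [Field K] [Finite K] {n : ℕ} (hn : 2 ≤ n) (hK : n = 2 → 3 ≤ Nat.card K) :
    ∃ g : symplecticGroup (Fin n) K ⧸ Subgroup.center (symplecticGroup (Fin n) K),
      ∀ z : symplecticGroup (Fin n) K ⧸ Subgroup.center (symplecticGroup (Fin n) K),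
        ∃ x y : symplecticGroup (Fin n) K ⧸ Subgroup.center (symplecticGroup (Fin n) K),
          IsConj g x ∧ IsConj g y ∧ x * y = z := by
  by_cases h : n = 2 ∧ Nat.card K = 3
  · obtain ⟨rfl, h3⟩ := h
    exact quotS_three h3
  · refine quotS_four hn fun h2 => ?_
    have h3 := hK h2
    rcases Nat.eq_or_lt_of_le h3 with h4 | h4
    · exact absurd ⟨h2, h4.symm⟩ h
    · exact h4

end ThW4
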