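import Pool.Agent.ThS.Main

/-!
# Symplectic groups of dimension 4, odd characteristic

`G` is an isometry of an alternating form on a space of dimension 4.  If `h w (G w) ≠ 0` for some `w`, then `G` has a
triangular block with the diagonal `l⁻¹, l` for every `l ≠ 0`, or `G` or `-G` has the block `1`.  The involutions with
two eigenspaces of dimension 2 have a block with the characteristic polynomial `X ^ 2 + 1`.
-/

namespace ThW4
open Matrix Polynomial Module ThS

section spaces

variable {K V : Type*} [Field K] [AddCommGroup V] [Module K V] (q : AF K V)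
variable {U : Submodule K V} {G : V →ₗ[K] V}

/-- the empty system -/
theorem tri_zero (U : Submodule K V) (G : V →ₗ[K] V) (l : Fin 0 → K) : q.Tri U G 0 l :=
  ⟨Fin.elim0, Fin.elim0, ⟨fun i => i.elim0, fun i => i.elim0, fun i => i.elim0,
    fun i => i.elim0, fun i => i.elim0⟩, fun i => i.elim0, fun i => i.elim0⟩

/-- a block of size 1 with a prescribed entry -/
theorem tri_one (hG : q.Iso U G) {e : V} (he : e ∈ U) (hz : q.h e (G e) ≠ 0) (l : K) :
    q.Tri U G 1 (fun _ => l) := by
  have h := stepI q hG he hz (tri_zero q _ _ Fin.elim0) l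
  have e : (Fin.cons l Fin.elim0 : Fin (0 + 1) → K) = fun _ => l := by
    funext i
    refine Fin.cases ?_ (fun i => ?_) i
    · rfl
    · exact i.elim0
  rw [e] at h
  exact h

/-- a block of size 1 from an eigenvector -/
theorem tri_eig [FiniteDimensional K V] (hU : q.ND U) {e : V} (he : e ∈ U) (h0 : e ≠ 0) {l : K}
    (hl : G e = l • e) : q.Tri U G 1 (fun _ => l) := by
  obtain ⟨e', he', h1⟩ := partner q hU he h0
  refine ⟨fun _ => e, fun _ => e', ⟨fun _ => he, fun _ => he', fun _ _ => q.alt e, fun _ _ => q.alt e',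
    fun i j => ?_⟩, fun i j hij => ?_, fun i => ?_⟩
  · rw [h1, if_pos (Subsingleton.elim i j)]
  · exact absurd (Subsingleton.elim j i) (ne_of_lt hij)
  · rw [hl, map_smul, h1, smul_eq_mul, mul_one]

/-- coordinates in a plane -/
theorem plane_span [FiniteDimensional K V] (hf : finrank K U = 2) {a b : V} (ha : a ∈ U) (hb : b ∈ U)
    (hab : q.h a b ≠ 0) {x : V} (hx : x ∈ U) : ∃ s t : K, x = s • a + t • b := by
  obtain ⟨s, t, h⟩ := perp2_dec q ha hb hab x hx
  have hfr := perp2_finrank q ha hb hab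
  have h0 : q.perp2 U a b = ⊥ := Submodule.finrank_eq_zero.1 (by omega)
  rw [h0, Submodule.mem_bot, sub_sub, sub_eq_zero] at h
  exact ⟨s, t, h⟩

/-- an isometry of a plane is a scalar or has a cyclic vector -/
theorem plane_cases [FiniteDimensional K V] (hU : q.ND U) (hf : finrank K U = 2) (hG : q.Iso U G) :
    (∃ e ∈ U, q.h e (G e) ≠ 0) ∨ ∃ a : K, a * a = 1 ∧ ∀ x ∈ U, G x = a • x := by
  by_cases hc : ∃ e ∈ U, q.h e (G e) ≠ 0
  · exact Or.inl hc
  · right
    push Not at hc
    obtain ⟨e, he, he0⟩ : ∃ e ∈ U, e ≠ 0 := by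
      by_contra hcon
      push Not at hcon
      have h1 : U = ⊥ := by
        rw [eq_bot_iff]
        exact fun x hx => hcon x hx
      rw [h1, finrank_bot] at hf
      omega
    obtain ⟨e', he', h1⟩ := partner q hU he he0
    have h1' : q.h e e' = -1 := by rw [q.symm e' e, h1]
    have hne : q.h e e' ≠ 0 := by
      rw [h1']
      exact neg_ne_zero.2 one_ne_zero
    obtain ⟨a, b, hab⟩ := plane_span q hf he he' hne (hG.1 e he)
    obtain ⟨c, d, hcd⟩ := plane_span q hf he he' hne (hG.1 e' he')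
    have hb : b = 0 := by
      have h2 := hc e he
      rw [hab, map_add, map_smul, map_smul, q.alt, h1', smul_eq_mul, smul_eq_mul] at h2
      linear_combination -h2
    have hc0 : c = 0 := by
      have h2 := hc e' he'
      rw [hcd, map_add, map_smul, map_smul, q.alt, h1, smul_eq_mul, smul_eq_mul] at h2
      linear_combination h2
    rw [hb, zero_smul, add_zero] at hab
    rw [hc0, zero_smul, zero_add] at hcd
    have hda : d = a := by
      have h2 := hc (e + e') (U.add_mem he he')
      rw [map_add, hab, hcd, map_add, map_smul, map_smul, q.add_left, q.add_left, q.alt, q.alt, h1, h1',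
        smul_eq_mul, smul_eq_mul] at h2
      linear_combination -h2
    rw [hda] at hcd
    refine ⟨a, ?_, fun x hx => ?_⟩
    · have h2 := hG.2 e' he' e he
      rw [hab, hcd, map_smul, q.smul_left, h1, smul_eq_mul] at h2
      linear_combination h2
    · obtain ⟨s, t, rfl⟩ := plane_span q hf he he' hne hx
      rw [map_add, map_smul, map_smul, hab, hcd, smul_add, smul_comm s a, smul_comm t a]

/-- The dichotomy.  `z = h w (G w)`, `P = perp2 U w (G w)`.  If `g1 G w` is not a scalar on the plane `P`: `tri_one`, `stepI`.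
Otherwise `G x = a x + β x • G w` on `P`, `a ^ 2 = 1`.  If `β = 0`: the block `a` in the system `w, e`.  If `β x ≠ 0`, then
with `v = w + s x`, `s β x = a l⁻¹ - 1`: `h v (G v) = z a l⁻¹`, `x ∈ perp2 U v (G v)` and `g1 G v x = l x`. -/
theorem four [FiniteDimensional K V] (hU : q.ND U) (hf : finrank K U = 4) (hG : q.Iso U G) {w : V}
    (hw : w ∈ U) (hz : q.h w (G w) ≠ 0) {l : K} (hl : l ≠ 0) :
    q.Tri U G 2 (Fin.cons l⁻¹ (fun _ => l)) ∨
      ∃ a : K, a * a = 1 ∧ q.Sys U G (a • (1 : Matrix (Fin 2) (Fin 2) K)) := by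
  have hGw := hG.1 w hw
  have hP := perp2_ND q hU hw hGw hz
  have hPf := perp2_finrank q hw hGw hz
  have hg := iso_g1 q hG hw hz
  rcases plane_cases q hP (by omega) hg with ⟨e, he, h⟩ | ⟨a, ha, h⟩
  · left
    exact stepI q hG hw hz (tri_one q hg he h l) l⁻¹
  · have hGx : ∀ x ∈ q.perp2 U w (G w), G x = a • x + (q.h w (G x) * (q.h w (G w))⁻¹) • G w := by
      intro x hx
      have h1 := h x hx
      rw [q.g1_apply, sub_eq_iff_eq_add] at h1
      exact h1
    by_cases hβ : ∀ x ∈ q.perp2 U w (G w), q.h w (G x) = 0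
    · right
      refine ⟨a, ha, ?_⟩
      obtain ⟨v, v', hv⟩ := hyp_ex q (n := 1) hP (by omega)
      obtain ⟨w', hw'⟩ : ∃ w', w' = (a * (q.h w (G w))⁻¹) • w - (q.h w (G w))⁻¹ • G w := ⟨_, rfl⟩
      have hw'U : w' ∈ U := by
        rw [hw']
        exact U.sub_mem (U.smul_mem _ hw) (U.smul_mem _ hGw)
      have h1 : q.h w' w = 1 := by
        rw [hw', q.sub_left, q.smul_left, q.smul_left, q.alt, q.symm w (G w), mul_neg,
          inv_mul_cancel₀ hz]
        ring
      have h2 : q.h w' (G w) = a := by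
        rw [hw', q.sub_left, q.smul_left, q.smul_left, q.alt, mul_zero, sub_zero, mul_assoc,
          inv_mul_cancel₀ hz, mul_one]
      have hperp : q.perp2 U w w' = q.perp2 U w (G w) := by
        ext x
        rw [q.mem_perp2, q.mem_perp2]
        refine and_congr_right fun _ => and_congr_right fun hx => ?_
        have h3 : q.h w' x = -((q.h w (G w))⁻¹ * q.h (G w) x) := by
          rw [hw', q.sub_left, q.smul_left, q.smul_left, hx]
          ring
        rw [h3, neg_eq_zero, mul_eq_zero]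
        exact ⟨fun h => h.resolve_left (inv_ne_zero hz), fun h => Or.inr h⟩
      have hGv : ∀ j, G (v j) = a • v j := fun j => by
        rw [hGx _ (hv.mem j), hβ _ (hv.mem j), zero_mul, zero_smul, add_zero]
      have hsys := hyp_cons q hw hw'U h1 (by rw [hperp]; exact hv)
      refine ⟨_, _, hsys, fun i j => ?_⟩
      rw [Matrix.smul_apply, Matrix.one_apply, smul_eq_mul, ← hsys.dual i j]
      revert j
      intro j
      refine Fin.cases ?_ (fun j => ?_) j
      · rw [Fin.cons_zero]
        refine Fin.cases ?_ (fun i => ?_) i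
        · rw [Fin.cons_zero, h1, h2, mul_one]
        · rw [Fin.cons_succ, q.swap_zero ((q.mem_perp2).1 (hv.mem' i)).2.2,
            q.swap_zero ((q.mem_perp2).1 (hv.mem' i)).2.1, mul_zero]
      · rw [Fin.cons_succ, hGv, map_smul, smul_eq_mul]
    · left
      push Not at hβ
      obtain ⟨x, hx, hβx⟩ := hβ
      obtain ⟨hxU, hx1, hx2⟩ := (q.mem_perp2).1 hx
      have ha0 : a ≠ 0 := fun h0 => by
        rw [h0, mul_zero] at ha
        exact zero_ne_one ha
      obtain ⟨β, hβ⟩ : ∃ β, β = q.h w (G x) * (q.h w (G w))⁻¹ := ⟨_, rfl⟩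
      have hβ0 : β ≠ 0 := by
        rw [hβ]
        exact mul_ne_zero hβx (inv_ne_zero hz)
      have hGx' : G x = a • x + β • G w := by
        rw [hβ]
        exact hGx x hx
      obtain ⟨s, hs⟩ : ∃ s, s = (a * l⁻¹ - 1) * β⁻¹ := ⟨_, rfl⟩
      have hsβ : s * β = a * l⁻¹ - 1 := by rw [hs, mul_assoc, inv_mul_cancel₀ hβ0, mul_one]
      obtain ⟨v, hv⟩ : ∃ v, v = w + s • x := ⟨_, rfl⟩
      have hvU : v ∈ U := by
        rw [hv]
        exact U.add_mem hw (U.smul_mem _ hxU)
      have hGv : G v = (a * l⁻¹) • G w + (s * a) • x := by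
        rw [hv, map_add, map_smul, hGx', smul_add, smul_smul, smul_smul, hsβ]
        module
      have hxw : q.h x w = 0 := q.swap_zero hx1
      have hxGw : q.h x (G w) = 0 := q.swap_zero hx2
      have hvGv : q.h v (G v) = a * l⁻¹ * q.h w (G w) := by
        rw [hGv, hv, q.add_left, q.smul_left, map_add, map_add, map_smul, map_smul, map_smul, map_smul,
          q.alt, hx1, hxGw]
        simp only [smul_eq_mul]
        ring
      have hz' : q.h v (G v) ≠ 0 := by
        rw [hvGv]
        exact mul_ne_zero (mul_ne_zero ha0 (inv_ne_zero hl)) hz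
      have hxP : x ∈ q.perp2 U v (G v) := by
        rw [q.mem_perp2]
        refine ⟨hxU, ?_, ?_⟩
        · rw [hv, q.add_left, q.smul_left, hx1, q.alt]
          ring
        · rw [hGv, q.add_left, q.smul_left, q.smul_left, hx2, q.alt]
          ring
      have hvGx : q.h v (G x) = β * q.h w (G w) := by
        rw [hv, hGx', q.add_left, q.smul_left, map_add, map_add, map_smul, map_smul, map_smul, map_smul,
          q.alt, hx1, hxGw]
        simp only [smul_eq_mul]
        ring
      have hx0 : x ≠ 0 := by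
        intro h0
        apply hβx
        rw [h0, map_zero, map_zero]
      have heig : q.g1 G v x = l • x := by
        have hc : q.h v (G x) * (q.h v (G v))⁻¹ = β * l * a := by
          rw [hvGx, hvGv]
          have hai : a⁻¹ = a := inv_eq_of_mul_eq_one_left ha
          rw [mul_inv, mul_inv, inv_inv, hai]
          field_simp
        rw [q.g1_apply, hc, hGv, hGx', smul_add, smul_smul, smul_smul]
        have e1 : β * l * a * (a * l⁻¹) = β := by
          have : β * l * a * (a * l⁻¹) = β * (a * a) * (l * l⁻¹) := by ring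
          rw [this, ha, mul_inv_cancel₀ hl]
          ring
        have e2 : β * l * a * (s * a) = a - l := by
          have h3 : β * l * a * (s * a) = l * (a * a) * (s * β) := by ring
          rw [h3, ha, hsβ, mul_one, mul_sub, mul_one, mul_comm a, ← mul_assoc, mul_inv_cancel₀ hl,
            one_mul]
        rw [e1, e2]
        module
      exact stepI q hG hvU hz' (tri_eig q (perp2_ND q hU hvU (hG.1 v hvU) hz') hxP hx0 heig) l⁻¹

end spaces

section conic

variable {K : Type*} [Field K]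

/-- a matrix of size 2 which is not a scalar is similar to its companion matrix -/
theorem sim2 (A : Matrix (Fin 2) (Fin 2) K) (h : A 0 1 ≠ 0 ∨ A 1 0 ≠ 0 ∨ A 0 0 ≠ A 1 1) :
    ∃ P : Matrix (Fin 2) (Fin 2) K, IsUnit P.det ∧ A * P = P * !![0, -A.det; 1, A.trace] := by
  by_cases h1 : A 1 0 = 0
  · by_cases h2 : A 0 1 = 0
    · refine ⟨!![1, A 0 0; 1, A 1 1], ?_, ?_⟩
      · rw [det_fin_two_of, isUnit_iff_ne_zero]
        intro h3
        rcases h with h | h | h
        · exact h h2
        · exact h h1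
        · exact h (by linear_combination -h3)
      · ext i j
        rw [det_fin_two, trace_fin_two]
        fin_cases i <;> fin_cases j <;> simp [Matrix.mul_apply, Fin.sum_univ_two, h1, h2] <;> ring
    · refine ⟨!![0, A 0 1; 1, A 1 1], ?_, ?_⟩
      · rw [det_fin_two_of, isUnit_iff_ne_zero]
        intro h3
        exact h2 (by linear_combination -h3)
      · ext i j
        rw [det_fin_two, trace_fin_two]
        fin_cases i <;> fin_cases j <;> simp [Matrix.mul_apply, Fin.sum_univ_two, h1] <;> ring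
  · refine ⟨!![1, A 0 0; 0, A 1 0], ?_, ?_⟩
    · rw [det_fin_two_of, isUnit_iff_ne_zero]
      intro h3
      exact h1 (by linear_combination h3)
    · ext i j
      rw [det_fin_two, trace_fin_two]
      fin_cases i <;> fin_cases j <;> simp [Matrix.mul_apply, Fin.sum_univ_two] <;> ring

theorem comp_two (f : K[X]) : ThU.comp f 2 = !![0, -f.coeff 0; 1, -f.coeff 1] := by
  ext i j
  fin_cases i <;> fin_cases j <;> simp [ThU.comp]

theorem eval_two {f : K[X]} (hfm : f.Monic) (hfn : f.natDegree = 2) (x : K) :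
    f.eval x = x * x + f.coeff 1 * x + f.coeff 0 := by
  have h2 : f.coeff 2 = 1 := by
    rw [← hfn]
    exact hfm.coeff_natDegree
  rw [Polynomial.eval_eq_sum_range, hfn, Finset.sum_range_succ, Finset.sum_range_succ,
    Finset.sum_range_succ, Finset.sum_range_zero, h2]
  ring

/-- The block with the characteristic polynomial `X ^ 2 + 1`.  With `f = X ^ 2 - τ X + δ`, `C = comp f 2`, look for
`C' = !![x, y; z, τ - x]` with determinant `δ` and `trace (C' C⁻¹) = 0`: `y = τ x + δ z` and
`x ^ 2 - τ x + τ x z + δ z ^ 2 + δ = 0`, that is `Y ^ 2 = Δ z ^ 2 - 2 τ ^ 2 z + Δ` with `Δ = τ ^ 2 - 4 δ`,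
`Y = 2 x + τ z - τ`, which is solvable (`FiniteField.exists_root_sum_quadratic`).  Now `C'` is similar to `C` and `C' C⁻¹` to the
block. -/
theorem fac_tr0 [Finite K] (h2 : (2 : K) ≠ 0) {f : K[X]} (hfm : f.Monic) (hfi : Irreducible f)
    (hfn : f.natDegree = 2) (hf0 : f.coeff 0 ≠ 0) : Fac f 2 (a2 K) := by
  have hroot : ∀ x : K, x * x + f.coeff 1 * x + f.coeff 0 ≠ 0 := by
    intro x hx
    rw [← eval_two hfm hfn] at hx
    have h3 := Polynomial.natDegree_eq_of_degree_eq_some
      (Polynomial.degree_eq_one_of_irreducible_of_root hfi hx)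
    rw [hfn] at h3
    exact absurd h3 (by norm_num)
  obtain ⟨δ, hδ⟩ : ∃ δ, δ = f.coeff 0 := ⟨_, rfl⟩
  obtain ⟨τ, hτ⟩ : ∃ τ, τ = -f.coeff 1 := ⟨_, rfl⟩
  have hτ' : f.coeff 1 = -τ := by rw [hτ, neg_neg]
  rw [← hδ] at hf0
  rw [← hδ, hτ'] at hroot
  have hΔ : τ * τ - 4 * δ ≠ 0 := by
    intro h3
    apply hroot (τ * 2⁻¹)
    have h4 : (2 : K) * 2⁻¹ = 1 := mul_inv_cancel₀ h2
    linear_combination ((2 : K)⁻¹ * 2⁻¹ - 2⁻¹) * h3 + (δ * (2 * 2⁻¹ - 1)) * h4
  have : Fintype K := Fintype.ofFinite K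
  have hodd : Fintype.card K % 2 = 1 := FiniteField.odd_card_of_char_ne_two (by
    intro hc
    apply h2
    have h5 := ringChar.charP K
    rw [hc] at h5
    exact_mod_cast CharP.cast_eq_zero K 2)
  obtain ⟨Y, z, hYz⟩ := FiniteField.exists_root_sum_quadratic (f := (X ^ 2 : K[X]))
    (g := -(C (τ * τ - 4 * δ) * X ^ 2 - C (2 * τ * τ) * X + C (τ * τ - 4 * δ))) (by simp) (by
      rw [degree_neg]
      compute_degree!) hodd
  have hYz' : Y * Y = (τ * τ - 4 * δ) * (z * z) - 2 * τ * τ * z + (τ * τ - 4 * δ) := by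
    simp only [eval_pow, eval_X, eval_neg, eval_add, eval_sub, eval_mul, eval_C] at hYz
    linear_combination hYz
  obtain ⟨x, hx⟩ : ∃ x, x = (Y - τ * z + τ) * 2⁻¹ := ⟨_, rfl⟩
  have h22 : (2 : K) * 2⁻¹ = 1 := mul_inv_cancel₀ h2
  have hY : Y = 2 * x + τ * z - τ := by
    rw [hx]
    linear_combination (-(Y - τ * z + τ)) * h22
  have hxz : x * x - τ * x + τ * x * z + δ * (z * z) + δ = 0 := by
    rw [hY] at hYz'
    have h4 : (4 : K) ≠ 0 := by
      have : (4 : K) = 2 * 2 := by norm_num
      rw [this]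
      exact mul_ne_zero h2 h2
    apply mul_left_cancel₀ h4
    linear_combination hYz'
  have hz : z ≠ 0 := by
    intro hz
    apply hroot x
    rw [hz] at hxz
    linear_combination hxz
  -- the matrix `C'`
  obtain ⟨C', hC'⟩ : ∃ C' : Matrix (Fin 2) (Fin 2) K, C' = !![x, τ * x + δ * z; z, τ - x] := ⟨_, rfl⟩
  have hCC : ThU.comp f 2 = !![0, -δ; 1, τ] := by
    rw [comp_two, ← hδ, hτ]
  obtain ⟨T, hT, hCT⟩ := sim2 C' (Or.inr (Or.inl (by rw [hC']; exact hz)))
  have hdet : C'.det = δ := by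
    rw [hC', det_fin_two_of]
    linear_combination -hxz
  have htr : C'.trace = τ := by
    rw [hC', trace_fin_two_of]
    ring
  rw [hdet, htr, ← hCC] at hCT
  have hinv : (ThU.comp f 2)⁻¹ = !![τ * δ⁻¹, 1; -δ⁻¹, 0] := by
    apply inv_eq_right_inv
    rw [hCC, Matrix.one_fin_two]
    ext i j
    fin_cases i <;> fin_cases j <;> simp [Matrix.mul_apply, Fin.sum_univ_two, hf0]
  obtain ⟨M, hM⟩ : ∃ M, M = C' * (ThU.comp f 2)⁻¹ := ⟨_, rfl⟩
  have hMe : M = !![-z, x; (z * τ - τ + x) * δ⁻¹, z] := by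
    rw [hM, hinv, hC']
    ext i j
    fin_cases i <;> fin_cases j <;> simp [Matrix.mul_apply, Fin.sum_univ_two] <;> field_simp <;> ring
  obtain ⟨P, hP, hMP⟩ := sim2 M (Or.inr (Or.inr (by
    rw [hMe]
    show -z ≠ z
    intro h5
    apply hz
    have h6 : (2 : K) * z = 0 := by linear_combination -h5
    exact (mul_eq_zero.1 h6).resolve_left h2)))
  have hMd : M.det = 1 := by
    rw [hMe, det_fin_two_of]
    field_simp
    linear_combination -hxz
  have hMt : M.trace = 0 := by
    rw [hMe, trace_fin_two_of]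
    ring
  rw [hMd, hMt] at hMP
  obtain ⟨Q, hQ, haQ⟩ := sim2 (a2 K) (Or.inr (Or.inl (by
    show (1 : K) ≠ 0
    exact one_ne_zero)))
  have had : (a2 K).det = 1 := by
    rw [a2, det_fin_two_of]
    ring
  have hat : (a2 K).trace = 0 := by
    rw [a2, trace_fin_two_of]
    ring
  rw [had, hat] at haQ
  refine ⟨P * Q⁻¹, T, ?_, hT, ?_⟩
  · rw [det_mul]
    exact hP.mul (isUnit_nonsing_inv_det _ hQ)
  · have e1 : T * ThU.comp f 2 * T⁻¹ = C' := by
      rw [← hCT, mul_nonsing_inv_cancel_right _ _ hT]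
    have e2 : P * Q⁻¹ * a2 K * (P * Q⁻¹)⁻¹ = M := by
      rw [Matrix.mul_inv_rev, nonsing_inv_nonsing_inv _ hQ]
      have e3 : Q⁻¹ * a2 K * Q = !![0, -1; 1, 0] := by
        rw [Matrix.mul_assoc, haQ, nonsing_inv_mul_cancel_left _ _ hQ]
      calc P * Q⁻¹ * a2 K * (Q * P⁻¹) = P * (Q⁻¹ * a2 K * Q) * P⁻¹ := by
            simp only [Matrix.mul_assoc]
        _ = M := by rw [e3, ← hMP, mul_nonsing_inv_cancel_right _ _ hP]
    rw [e1, e2, hM]

end conic

section blocks

variable {K : Type*} [Field K]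

/-- the block of an isometry of a space of dimension 4, up to sign -/
theorem blocks4 [Finite K] (h2 : (2 : K) ≠ 0) {l : K} (hl : l ≠ 0) (hl1 : l * l ≠ 1) {f : K[X]}
    (hfm : f.Monic) (hfi : Irreducible f) (hfn : f.natDegree = 2) (hf0 : f.coeff 0 ≠ 0)
    (hC : IsUnit (ThU.comp f 2).det) (g : symplecticGroup (Fin 2) K) :
    ∃ a : Matrix (Fin 2) (Fin 2) K, Fac f 2 a ∧
      ((hS K 2).Sys ⊤ (Matrix.mulVecLin (g : Matrix (Fin 2 ⊕ Fin 2) (Fin 2 ⊕ Fin 2) K)) a ∨
      (hS K 2).Sys ⊤ (Matrix.mulVecLin ((negS K 2 * g : symplecticGroup (Fin 2) K) :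
        Matrix (Fin 2 ⊕ Fin 2) (Fin 2 ⊕ Fin 2) K)) a) := by
  set G := Matrix.mulVecLin (g : Matrix (Fin 2 ⊕ Fin 2) (Fin 2 ⊕ Fin 2) K) with hG
  have hGi : (hS K 2).Iso ⊤ G := sp_iso g
  have hV : (hS K 2).ND ⊤ := hS_ND
  have hfr : finrank K (⊤ : Submodule K (Fin 2 ⊕ Fin 2 → K)) = 4 := by
    rw [finrank_top, Module.finrank_fintype_fun_eq_card, Fintype.card_sum, Fintype.card_fin]
  have hneg := negS_mul g
  by_cases hw : ∃ w ∈ (⊤ : Submodule K (Fin 2 ⊕ Fin 2 → K)), (hS K 2).h w (G w) ≠ 0
  · obtain ⟨w, hw, hz⟩ := hw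
    rcases four (hS K 2) hV hfr hGi hw hz hl with ⟨v, v', hv, ha, hd⟩ | ⟨a, ha, v, v', hv, hb⟩
    · refine ⟨Matrix.of fun i j => (hS K 2).h (v' i) (G (v j)), ?_, Or.inl ⟨v, v', hv, fun i j => rfl⟩⟩
      refine ThU.fact hfm hfn hf0 _ (fun i j hij => ha i j hij) ?_ ⟨0, 1, ?_⟩
      · simp only [of_apply, hd]
        rw [Fin.prod_univ_two]
        exact inv_mul_cancel₀ hl
      · rw [of_apply, of_apply, hd, hd]
        intro h
        apply hl1
        have h5 : l⁻¹ = l := h
        nth_rw 1 [← h5]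
        exact inv_mul_cancel₀ hl
    · refine ⟨1, fac_one hC, ?_⟩
      rcases mul_self_eq_one_iff.1 ha with rfl | rfl
      · left
        rw [one_smul] at hb
        exact ⟨v, v', hv, hb⟩
      · right
        refine ⟨v, v', hv, fun i j => ?_⟩
        rw [hneg, map_neg, hb, neg_smul, one_smul, Matrix.neg_apply, neg_neg]
  · -- involutions
    push Not at hw
    obtain ⟨r, s, w, w', v, v', hrs, hh, h1, h1', h3, h3'⟩ := inv_sys _ h2 hV hGi hw
    rw [hfr] at hrs
    have hrs' : r + s = 2 := by omega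
    let e : Fin r ⊕ Fin s ≃ Fin 2 := finSumFinEquiv.trans (finCongr hrs')
    have hS1 : (hS K 2).Sys ⊤ G (diagonal (Sum.elim (fun _ : Fin r => (1 : K)) fun _ : Fin s => -1)) := by
      refine ⟨Sum.elim w v, Sum.elim w' v', hh, fun i j => ?_⟩
      rcases j with j | j
      · rw [Sum.elim_inl, h1, ← Sum.elim_inl w v j, hh.dual, diagonal_apply]
        by_cases hij : i = Sum.inl j
        · rw [if_pos hij, if_pos hij, hij, Sum.elim_inl]
        · rw [if_neg hij, if_neg hij]
      · rw [Sum.elim_inr, h3, map_neg, ← Sum.elim_inr w v j, hh.dual, diagonal_apply]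
        by_cases hij : i = Sum.inr j
        · rw [if_pos hij, if_pos hij, hij, Sum.elim_inr]
        · rw [if_neg hij, if_neg hij, neg_zero]
    have hS2 : (hS K 2).Sys ⊤ (Matrix.mulVecLin ((negS K 2 * g : symplecticGroup (Fin 2) K) :
        Matrix (Fin 2 ⊕ Fin 2) (Fin 2 ⊕ Fin 2) K))
        (diagonal (Sum.elim (fun _ : Fin r => (-1 : K)) fun _ : Fin s => 1)) := by
      refine ⟨Sum.elim w v, Sum.elim w' v', hh, fun i j => ?_⟩
      rw [hneg, map_neg]
      rcases j with j | j
      · show -(hS K 2).h _ (G (Sum.elim w v (Sum.inl j))) = _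
        rw [Sum.elim_inl, h1, ← Sum.elim_inl w v j, hh.dual, diagonal_apply]
        by_cases hij : i = Sum.inl j
        · rw [if_pos hij, if_pos hij, hij, Sum.elim_inl]
        · rw [if_neg hij, if_neg hij, neg_zero]
      · show -(hS K 2).h _ (G (Sum.elim w v (Sum.inr j))) = _
        rw [Sum.elim_inr, h3, map_neg, neg_neg, ← Sum.elim_inr w v j, hh.dual, diagonal_apply]
        by_cases hij : i = Sum.inr j
        · rw [if_pos hij, if_pos hij, hij, Sum.elim_inr]
        · rw [if_neg hij, if_neg hij]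
    have hone : ∀ d : Fin r ⊕ Fin s → K, (∀ i, d i = 1) → Matrix.reindex e e (diagonal d) = 1 :=
      fun d hd => by
        have : d = 1 := funext hd
        rw [this, reindex_apply, submatrix_diagonal_equiv]
        exact diagonal_one
    by_cases hs0 : s = 0
    · subst hs0
      refine ⟨_, ?_, Or.inl (hS1.reindex e)⟩
      rw [hone _ (fun i => by rcases i with i | i; · rfl
                              · exact i.elim0)]
      exact fac_one hC
    by_cases hr0 : r = 0
    · subst hr0
      refine ⟨_, ?_, Or.inr (hS2.reindex e)⟩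
      rw [hone _ (fun i => by rcases i with i | i; · exact i.elim0
                              · rfl)]
      exact fac_one hC
    obtain rfl : r = 0 + 1 := by omega
    obtain rfl : s = 0 + 1 := by omega
    refine ⟨_, ?_, Or.inl ((inv_odd (hS K 2) h2 hh h1 h1' h3 h3').reindex
      (Equiv.sumEmpty (Fin 2) (Fin 0 ⊕ Fin 0)))⟩
    have e1 : Matrix.reindex (Equiv.sumEmpty (Fin 2) (Fin 0 ⊕ Fin 0)) (Equiv.sumEmpty (Fin 2) (Fin 0 ⊕ Fin 0))
        (fromBlocks (a2 K) 0 0 (diagonal (Sum.elim (fun _ => 1) (fun _ => -1)))) = a2 K := by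
      ext i j
      rfl
    rw [e1]
    exact fac_tr0 h2 hfm hfi hfn hf0

/-- a field with at least 4 elements has an element `l` with `l ≠ 0`, `l ^ 2 ≠ 1` -/
theorem exists_l [Finite K] (hK : 4 ≤ Nat.card K) : ∃ l : K, l ≠ 0 ∧ l * l ≠ 1 := by
  classical
  have : Fintype K := Fintype.ofFinite K
  rw [Nat.card_eq_fintype_card] at hK
  by_contra hcon
  push Not at hcon
  have h1 : (Finset.univ : Finset K) ⊆ {0, 1, -1} := by
    intro x _
    by_cases hx : x = 0
    · rw [hx]
      simp
    · rcases mul_self_eq_one_iff.1 (hcon x hx) with rfl | rfl <;> simp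
  have h3 := (Finset.card_le_card h1).trans Finset.card_le_three
  rw [Finset.card_univ] at h3
  omega

end blocks

end ThW4
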