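import Pool.Agent.ThW4.Seed
import Pool.Agent.ThW4.Odd

/-! # The main theorem for `PSp_4(q)`, `q ≥ 4` -/

namespace ThW4
open Matrix Polynomial Module ThS

variable {K : Type*} [Field K]

/-- odd characteristic -/
theorem main_odd [Finite K] (h2 : (2 : K) ≠ 0) (hK : 4 ≤ Nat.card K) :
    ∃ x : symplecticGroup (Fin 2) K, ∀ g : symplecticGroup (Fin 2) K,
      ∃ z : symplecticGroup (Fin 2) K, (∀ y : symplecticGroup (Fin 2) K, z * y = y * z) ∧
        ∃ r r' : symplecticGroup (Fin 2) K, g = z * (r * x * r⁻¹ * (r' * x * r'⁻¹)) := by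
  obtain ⟨l, hl, hl1⟩ := exists_l hK
  obtain ⟨f, B, hfm, hfi, hfn, hf0, hfB, hB⟩ := seed2 (K := K) hK
  have hC : IsUnit (ThU.comp f 2).det := by
    rw [← hfB]
    exact (Matrix.isUnit_iff_isUnit_det _).1 B.isUnit
  refine ⟨mS K 2 B, fun g => ?_⟩
  obtain ⟨a, hfac, ha | ha⟩ := blocks4 h2 hl hl1 hfm hfi hfn hf0 hC g
  · obtain ⟨r, r', h⟩ := prod_of_sysS hfB hB g ha hfac
    exact ⟨1, fun y => by rw [one_mul, mul_one], r, r', by rw [one_mul]; exact h⟩
  · obtain ⟨r, r', h⟩ := prod_of_sysS hfB hB _ ha hfac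
    refine ⟨negS K 2, negS_comm, r, r', ?_⟩
    rw [← h, ← mul_assoc, negS_sq, one_mul]

/-- The conclusion for the quotient by the center. -/
theorem quotO [Finite K] (h2 : (2 : K) ≠ 0) (hK : 4 ≤ Nat.card K) :
    ∃ g : symplecticGroup (Fin 2) K ⧸ Subgroup.center (symplecticGroup (Fin 2) K),
      ∀ z : symplecticGroup (Fin 2) K ⧸ Subgroup.center (symplecticGroup (Fin 2) K),
        ∃ x y : symplecticGroup (Fin 2) K ⧸ Subgroup.center (symplecticGroup (Fin 2) K),
          IsConj g x ∧ IsConj g y ∧ x * y = z := by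
  obtain ⟨x, h⟩ := main_odd (K := K) h2 hK
  refine ⟨QuotientGroup.mk x, fun g => ?_⟩
  obtain ⟨g, rfl⟩ := QuotientGroup.mk_surjective g
  obtain ⟨z, hz, r, r', hg⟩ := h g
  refine ⟨QuotientGroup.mk (r * x * r⁻¹), QuotientGroup.mk (r' * x * r'⁻¹), ?_, ?_, ?_⟩
  · rw [isConj_iff]
    exact ⟨QuotientGroup.mk r, rfl⟩
  · rw [isConj_iff]
    exact ⟨QuotientGroup.mk r', rfl⟩
  · have hz' : z ∈ Subgroup.center (symplecticGroup (Fin 2) K) := by
      rw [Subgroup.mem_center_iff]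
      intro y
      exact (hz y).symm
    rw [← QuotientGroup.mk_mul]
    refine QuotientGroup.eq.2 ?_
    rw [hg, hz, inv_mul_cancel_left]
    exact hz'

/-- All symplectic groups of dimension at least 4, except `Sp_4(2)` and `Sp_4(3)`. -/
theorem quotS_four [Finite K] {n : ℕ} (hn : 2 ≤ n) (hK : n = 2 → 4 ≤ Nat.card K) :
    ∃ g : symplecticGroup (Fin n) K ⧸ Subgroup.center (symplecticGroup (Fin n) K),
      ∀ z : symplecticGroup (Fin n) K ⧸ Subgroup.center (symplecticGroup (Fin n) K),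
        ∃ x y : symplecticGroup (Fin n) K ⧸ Subgroup.center (symplecticGroup (Fin n) K),
          IsConj g x ∧ IsConj g y ∧ x * y = z := by
  rcases Nat.eq_or_lt_of_le hn with h | h
  · subst h
    by_cases h2 : (2 : K) = 0
    · exact quotE h2 (hK rfl)
    · exact quotO h2 (hK rfl)
  · exact ThS2.quotS_all h

end ThW4
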