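import Pool.Agent.ThQ.Seed
import Pool.Agent.ThS2.One

/-! # The seed of degree 2, and `Sp_4(q)` in characteristic 2 (`q ≥ 4`) -/

namespace ThW4
open Matrix Polynomial Module

variable {K : Type*} [Field K]

/-- Arithmetic: `q ≥ 4`, `N = (q ^ 2 - 1) / gcd(2, q ^ 2 - 1)`: `N > q + 1`. -/
theorem seed_arith2 {q N : ℕ} (hq : 4 ≤ q)
    (hN : (Even q ∧ N = q ^ 2 - 1) ∨ (¬ Even q ∧ 2 * N = q ^ 2 - 1)) :
    (∀ d, 0 < d → d < 2 → ¬ N ∣ q ^ d - 1) ∧ ∀ i, i < 2 → ¬ N ∣ q ^ i + 1 := by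
  have hNP : q + 1 < N := by
    rcases hN with ⟨-, hN⟩ | ⟨ho, hN⟩
    · have h1 : q * 4 ≤ q * q := Nat.mul_le_mul_left _ hq
      have h2 : q ^ 2 = q * q := sq q
      omega
    · have hq5 : 5 ≤ q := by
        rcases Nat.lt_or_ge q 5 with h | h
        · exfalso
          apply ho
          have : q = 4 := by omega
          rw [this]
          exact ⟨2, rfl⟩
        · exact h
      have h1 : q * 5 ≤ q * q := Nat.mul_le_mul_left _ hq5
      have h2 : q ^ 2 = q * q := sq q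
      omega
  refine ⟨fun d hd hdk hdv => ?_, fun i hi hdv => ?_⟩
  · obtain rfl : d = 1 := by omega
    rw [pow_one] at hdv
    have h2 := Nat.le_of_dvd (by omega) hdv
    omega
  · have h2 := Nat.le_of_dvd (by omega) hdv
    rcases (by omega : i = 0 ∨ i = 1) with rfl | rfl
    · rw [pow_zero] at h2
      omega
    · rw [pow_one] at h2
      omega

private theorem Seed_core (K : Type*) [Field K] [Finite K] (hK : 4 ≤ Nat.card K) {k : ℕ} (hk : k = 2)
    (E : Type) [Field E] [Algebra K E] [Finite E] (hE : finrank K E = k) :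
    ∃ (f : K[X]) (γ : E), f.Monic ∧ Irreducible f ∧ f.natDegree = k ∧ finrank K E = k ∧
      aeval (γ ^ 2) f = 0 ∧ aeval (γ ^ 2)⁻¹ f ≠ 0 ∧ γ ≠ 0 := by
  have : Fintype K := Fintype.ofFinite K
  have : Fintype E := Fintype.ofFinite E
  have : Module.Finite K E := Module.Finite.of_finite
  obtain ⟨q, hq⟩ : ∃ q, q = Fintype.card K := ⟨_, rfl⟩
  have hq4 : 4 ≤ q := by
    rw [hq, ← Nat.card_eq_fintype_card]
    exact hK
  have hq2 : 2 ≤ q := by omega
  have hcE : Fintype.card E = q ^ k := by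
    rw [Module.card_eq_pow_finrank (K := K) (V := E), ← hq, hE]
  obtain ⟨g, hg⟩ := IsCyclic.exists_generator (α := Eˣ)
  have hog : orderOf g = q ^ k - 1 := by
    rw [orderOf_eq_card_of_forall_mem_zpowers hg, Nat.card_units, Nat.card_eq_fintype_card, hcE]
  have hpos : 0 < q ^ k := pow_pos (by omega) _
  obtain ⟨N, hN, hN'⟩ : ∃ N, orderOf (g ^ 2) = N ∧
      ((Even q ∧ N = q ^ k - 1) ∨ (¬ Even q ∧ 2 * N = q ^ k - 1)) := by
    refine ⟨_, rfl, ?_⟩
    rw [orderOf_pow' g two_ne_zero, hog]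
    rcases Nat.even_or_odd q with he | ho
    · left
      refine ⟨he, ?_⟩
      have h1 : Even (q ^ k) := (Nat.even_pow' (by omega)).2 he
      have h2 : ¬ Even (q ^ k - 1) := by
        obtain ⟨m, hm⟩ := h1
        rw [Nat.not_even_iff_odd]
        exact ⟨m - 1, by omega⟩
      have h3 : Nat.gcd (q ^ k - 1) 2 = 1 := by
        rcases (Nat.dvd_prime Nat.prime_two).1 (Nat.gcd_dvd_right (q ^ k - 1) 2) with h | h
        · exact h
        · exfalso
          apply h2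
          rw [even_iff_two_dvd]
          exact h ▸ Nat.gcd_dvd_left (q ^ k - 1) 2
      rw [h3, Nat.div_one]
    · right
      refine ⟨Nat.not_even_iff_odd.2 ho, ?_⟩
      have h1 : Odd (q ^ k) := ho.pow
      have h2 : 2 ∣ q ^ k - 1 := by
        obtain ⟨m, hm⟩ := h1
        exact ⟨m, by omega⟩
      rw [Nat.gcd_eq_right h2, Nat.mul_div_cancel' h2]
  have hN'' : (Even q ∧ N = q ^ 2 - 1) ∨ (¬ Even q ∧ 2 * N = q ^ 2 - 1) := by
    have h := hN'
    rw [hk] at h
    exact h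
  obtain ⟨hd, hi⟩ := seed_arith2 hq4 hN''
  have hd' : ∀ d, 0 < d → d < k → ¬ N ∣ q ^ d - 1 := fun d h1 h2 => hd d h1 (by omega)
  have hi'' : ∀ i, i < k → ¬ N ∣ q ^ i + 1 := fun i h1 => hi i (by omega)
  obtain ⟨γ, hγ⟩ : ∃ γ : E, γ = (g : E) := ⟨_, rfl⟩
  have hγ0 : γ ≠ 0 := by rw [hγ]; exact Units.ne_zero _
  have hβ0 : γ ^ 2 ≠ 0 := pow_ne_zero _ hγ0
  obtain ⟨β, hβ⟩ : ∃ β : E, β = γ ^ 2 := ⟨_, rfl⟩
  rw [← hβ] at hβ0
  have hβN : orderOf β = N := by
    rw [hβ, hγ, ← Units.val_pow_eq_pow_val, orderOf_units, hN]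
  have hint : IsIntegral K β := Algebra.IsIntegral.isIntegral β
  obtain ⟨f, hf⟩ : ∃ f, f = minpoly K β := ⟨_, rfl⟩
  have hfm : f.Monic := by rw [hf]; exact minpoly.monic hint
  have hfi : Irreducible f := by rw [hf]; exact minpoly.irreducible hint
  have hfr : aeval β f = 0 := by rw [hf]; exact minpoly.aeval K β
  have hdeg : f.natDegree = k := by
    have hle : f.natDegree ≤ k := by rw [hf, ← hE]; exact minpoly.natDegree_le β
    have hfin : finrank K (IntermediateField.adjoin K {β}) = f.natDegree := by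
      rw [hf]; exact IntermediateField.adjoin.finrank hint
    by_contra hne
    refine hd' f.natDegree ?_ (lt_of_le_of_ne hle hne) ?_
    · rw [hf]; exact minpoly.natDegree_pos hint
    · have : Fintype (IntermediateField.adjoin K {β}) := Fintype.ofFinite _
      have hc : Fintype.card (IntermediateField.adjoin K {β}) = q ^ f.natDegree := by
        rw [Module.card_eq_pow_finrank (K := K), ← hq, hfin]
      have h1 := FiniteField.pow_card (⟨β, IntermediateField.mem_adjoin_simple_self K β⟩ :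
        IntermediateField.adjoin K {β})
      rw [hc] at h1
      have h2 : β ^ (q ^ f.natDegree) = β := congrArg Subtype.val h1
      have hpos : 0 < q ^ f.natDegree := pow_pos (by omega) _
      rw [← hβN, orderOf_dvd_iff_pow_eq_one]
      apply mul_left_cancel₀ hβ0
      rw [← pow_succ', Nat.sub_add_cancel hpos, h2, mul_one]
  refine ⟨f, γ, hfm, hfi, hdeg, hE, by rw [← hβ]; exact hfr, fun h0 => ?_, hγ0⟩
  rw [← hβ] at h0
  have h1 : minpoly K β⁻¹ = minpoly K β := by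
    rw [← hf]
    exact (minpoly.eq_of_irreducible_of_monic hfi h0 hfm).symm
  obtain ⟨σ, hσ'⟩ := isConjRoot_iff_exists_algEquiv.1
    ((isConjRoot_def (R := K) (x := β⁻¹) (y := β)).2 h1)
  obtain ⟨⟨i, hik⟩, hi'⟩ := (FiniteField.bijective_frobeniusAlgEquivOfAlgebraic_pow K E).2 σ
  rw [hE] at hik
  apply hi'' i hik
  rw [← hβN, orderOf_dvd_iff_pow_eq_one, pow_succ]
  have h2 : β⁻¹ = β ^ (q ^ i) := by
    rw [← hσ', ← hi']
    show (FiniteField.frobeniusAlgEquivOfAlgebraic K E ^ i) β = _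
    rw [AlgEquiv.coe_pow, FiniteField.coe_frobeniusAlgEquivOfAlgebraic_iterate, ← hq]
  rw [← h2, inv_mul_cancel₀ hβ0]

/-- Let `E` be the extension of degree `k` of `K` (`FiniteField.Extension`, see `SeedA.lean` in `Pool/Agent/ThU`), `q = card K`, `γ` a generator of `Eˣ`
(order `q ^ k - 1`) and `β = γ ^ 2`, of order `N` as in `seed_arith2`.  `f = minpoly K β`.
* `f` has degree `k`: otherwise `β` lies in a subfield with `q ^ d` elements, `d < k`, and `β ^ (q ^ d - 1) = 1`.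
* `f (β⁻¹) ≠ 0`: the roots of `f` in `E` are the `β ^ (q ^ i)`, `i < k`; `β ^ (q ^ i + 1) ≠ 1`. -/
theorem seed_field2 [Finite K] (hK : 4 ≤ Nat.card K) {k : ℕ} (hk : k = 2) :
    ∃ (f : K[X]) (E : Type) (_ : Field E) (_ : Algebra K E) (_ : Finite E) (γ : E),
      f.Monic ∧ Irreducible f ∧ f.natDegree = k ∧ finrank K E = k ∧ aeval (γ ^ 2) f = 0 ∧
      aeval (γ ^ 2)⁻¹ f ≠ 0 ∧ γ ≠ 0 := by
  obtain ⟨p, hp⟩ := CharP.exists K
  have hpp : Fact p.Prime := ⟨CharP.char_is_prime K p⟩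
  have : NeZero k := ⟨by omega⟩
  obtain ⟨f, γ, h⟩ := Seed_core K hK hk (FiniteField.Extension K p k)
    (FiniteField.finrank_extension K p k)
  exact ⟨f, FiniteField.Extension K p k, inferInstance, inferInstance, inferInstance, γ, h⟩

private theorem Seed_tr {n : ℕ} (M : Matrix (Fin n) (Fin n) K) (p : K[X]) :
    aeval Mᵀ p = (aeval M p)ᵀ := by
  induction p using Polynomial.induction_on' with
  | add p q hp hq => rw [map_add, map_add, hp, hq, transpose_add]
  | monomial i a =>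
    rw [aeval_monomial, aeval_monomial, transpose_mul, transpose_pow,
      Algebra.algebraMap_eq_smul_one, transpose_smul, transpose_one, smul_mul_assoc, one_mul,
      mul_smul_comm, mul_one]

private theorem Seed_int {n : ℕ} {M N Z : Matrix (Fin n) (Fin n) K} (h : Z * M = N * Z) (p : K[X]) :
    Z * aeval M p = aeval N p * Z := by
  have hpow : ∀ i : ℕ, Z * M ^ i = N ^ i * Z := by
    intro i
    induction i with
    | zero => rw [pow_zero, pow_zero, mul_one, one_mul]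
    | succ i ih => rw [pow_succ, ← mul_assoc, ih, mul_assoc, h, ← mul_assoc, pow_succ]
  induction p using Polynomial.induction_on' with
  | add p q hp hq => rw [map_add, map_add, mul_add, add_mul, hp, hq]
  | monomial i a =>
    rw [aeval_monomial, aeval_monomial, Algebra.algebraMap_eq_smul_one, smul_mul_assoc, one_mul,
      smul_mul_assoc, one_mul, mul_smul_comm, hpow, smul_mul_assoc]

/-- From `seed_field2`, with `β = γ ^ 2` and the basis `b` of `comp_mul` (`ThU.comp_mul` in `Pool/Agent/ThU/SeedB.lean`): `B` is the matrix of the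
multiplication by `β`, equal to `comp f k`, `C` the matrix of the multiplication by `γ`, `C * C = B`; both are units.
* `d`: `B` and `Bᵀ` both satisfy `f` (`aeval` of the transpose), so `d B = Bᵀ d` with `d` invertible (`ThU.sim_irr`); `C` is a polynomial in `B`
(`comp_mul`), so `d C = Cᵀ d`.
* `n1`: `B - 1` is the matrix of the multiplication by `β - 1 ≠ 0`.
* `syl`: `Bᵀ Z B = Z` implies `Z B = (B⁻¹)ᵀ Z`, so `Z (aeval B p) = (aeval B⁻¹ p)ᵀ Z` for all `p`; with `p = f`: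
`(aeval B⁻¹ f)ᵀ Z = 0`, and `aeval B⁻¹ f` is the matrix of the multiplication by `f (β⁻¹) ≠ 0`, which is invertible. -/
theorem seed_exk [Finite K] (hK : 4 ≤ Nat.card K) {k : ℕ} (hk : k = 2) : ∃ (f : K[X]) (B : (Matrix (Fin k) (Fin k) K)ˣ),
    f.Monic ∧ Irreducible f ∧ f.natDegree = k ∧ f.coeff 0 ≠ 0 ∧
      (B : Matrix (Fin k) (Fin k) K) = ThU.comp f k ∧ ThQ.SeedQ B := by
  obtain ⟨f, E, _, _, _, γ, hfm, hfi, hdeg, hE, hβ, hβi, hγ0⟩ := seed_field2 (K := K) hK hk
  have h0k : 0 < k := by omega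
  obtain ⟨b, -, hB, hp, -, hsurj⟩ := ThU.comp_mul hfm hfi hdeg hE h0k hβ
  have hβ0 : γ ^ 2 ≠ 0 := pow_ne_zero _ hγ0
  have hLinv : ∀ x : E, x ≠ 0 → Algebra.leftMulMatrix b x * Algebra.leftMulMatrix b x⁻¹ = 1 := by
    intro x hx
    rw [← map_mul, mul_inv_cancel₀ hx, map_one]
  have hLinv' : ∀ x : E, x ≠ 0 → Algebra.leftMulMatrix b x⁻¹ * Algebra.leftMulMatrix b x = 1 := by
    intro x hx
    rw [← map_mul, inv_mul_cancel₀ hx, map_one]
  obtain ⟨U, hU⟩ : ∃ U : ∀ x : E, x ≠ 0 → (Matrix (Fin k) (Fin k) K)ˣ,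
      ∀ x hx, (U x hx : Matrix (Fin k) (Fin k) K) = Algebra.leftMulMatrix b x :=
    ⟨fun x hx => ⟨Algebra.leftMulMatrix b x, Algebra.leftMulMatrix b x⁻¹, hLinv x hx, hLinv' x hx⟩,
      fun x hx => rfl⟩
  have hne1 : γ ^ 2 - 1 ≠ 0 := by
    intro h
    have h1 : γ ^ 2 = 1 := sub_eq_zero.1 h
    rw [h1, inv_one] at hβi
    rw [h1] at hβ
    exact hβi hβ
  refine ⟨f, U (γ ^ 2) hβ0, hfm, hfi, hdeg, ?_, by rw [hU, hB], ?_, ?_, ?_⟩
  · intro h0
    have h1 : X ∣ f := Polynomial.X_dvd_iff.2 h0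
    have h2 := (Polynomial.irreducible_X.dvd_irreducible_iff_associated hfi).1 h1
    have h3 := Polynomial.natDegree_eq_of_degree_eq (Polynomial.degree_eq_degree_of_associated h2)
    rw [natDegree_X, hdeg] at h3
    omega
  · -- the root
    obtain ⟨d, hd, hdB⟩ := ThU.sim_irr hfm hfi hdeg h0k
      (M := Algebra.leftMulMatrix b (γ ^ 2)) (N := (Algebra.leftMulMatrix b (γ ^ 2))ᵀ)
      (by rw [aeval_algHom_apply, hβ, map_zero])
      (by rw [Seed_tr, aeval_algHom_apply, hβ, map_zero, transpose_zero])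
    obtain ⟨du, hdu⟩ := (Matrix.isUnit_iff_isUnit_det d).2 hd
    refine ⟨U γ hγ0, du, ?_, ?_⟩
    · apply Units.ext
      rw [Units.val_mul, hU, hU, ← map_mul, ← pow_two]
    · rw [hU, hdu]
      obtain ⟨p, hpγ⟩ := hsurj γ
      rw [← hpγ, ← aeval_algHom_apply, Seed_int hdB, Seed_tr]
  · -- `n1`
    intro v hv
    rw [hU] at hv
    have h1 : Algebra.leftMulMatrix b (γ ^ 2 - 1) *ᵥ v = 0 := by
      rw [map_sub, map_one, sub_mulVec, one_mulVec, hv, sub_self]
    have h2 : v = (Algebra.leftMulMatrix b (γ ^ 2 - 1)⁻¹ * Algebra.leftMulMatrix b (γ ^ 2 - 1)) *ᵥ v := by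
      rw [hLinv' _ hne1, one_mulVec]
    rw [h2, ← mulVec_mulVec, h1, mulVec_zero]
  · -- `syl`
    intro Z hZ
    rw [hU] at hZ
    have h1 : Z * Algebra.leftMulMatrix b (γ ^ 2) =
        (Algebra.leftMulMatrix b (γ ^ 2)⁻¹)ᵀ * Z := by
      conv_rhs => rw [← hZ]
      rw [mul_assoc, ← mul_assoc ((Algebra.leftMulMatrix b (γ ^ 2)⁻¹)ᵀ), ← transpose_mul,
        hLinv _ hβ0, transpose_one, one_mul]
    have h2 := Seed_int h1 f
    rw [aeval_algHom_apply, hβ, map_zero, mul_zero, Seed_tr, aeval_algHom_apply] at h2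
    have h3 : Z = (Algebra.leftMulMatrix b (aeval (γ ^ 2)⁻¹ f)⁻¹)ᵀ *
        ((Algebra.leftMulMatrix b (aeval (γ ^ 2)⁻¹ f))ᵀ * Z) := by
      rw [← mul_assoc, ← transpose_mul, hLinv _ hβi, transpose_one, one_mul]
    rw [h3, ← h2, mul_zero]

/-- the seed of degree 2 -/
theorem seed2 [Finite K] (hK : 4 ≤ Nat.card K) : ∃ (f : K[X]) (B : (Matrix (Fin 2) (Fin 2) K)ˣ),
    f.Monic ∧ Irreducible f ∧ f.natDegree = 2 ∧ f.coeff 0 ≠ 0 ∧
      (B : Matrix (Fin 2) (Fin 2) K) = ThU.comp f 2 ∧ ThQ.SeedQ B :=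
  seed_exk hK rfl

open ThS ThS2

/-- characteristic 2: the block `1` -/
theorem main_even [Finite K] (h2 : (2 : K) = 0) (hK : 4 ≤ Nat.card K) :
    ∃ x : symplecticGroup (Fin 2) K, ∀ g : symplecticGroup (Fin 2) K,
      ∃ r r' : symplecticGroup (Fin 2) K, g = r * x * r⁻¹ * (r' * x * r'⁻¹) := by
  obtain ⟨f, B, hfm, hfi, hfn, hf0, hfB, hB⟩ := seed2 (K := K) hK
  have hC : IsUnit (ThU.comp f 2).det := by
    rw [← hfB]
    exact (Matrix.isUnit_iff_isUnit_det _).1 B.isUnit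
  refine ⟨mS K 2 B, fun g => ?_⟩
  have hfr : finrank K (⊤ : Submodule K (Fin 2 ⊕ Fin 2 → K)) = 2 * 2 := by
    rw [finrank_top, Module.finrank_fintype_fun_eq_card, Fintype.card_sum, Fintype.card_fin]
  obtain ⟨n', h1, h⟩ := sys_one (ctx_of h2 g) _ ⊤ hS_ND ⟨fun _ _ => Submodule.mem_top,
    fun _ _ => Submodule.mem_top⟩ le_rfl
  obtain rfl : n' = 2 := by omega
  exact prod_of_sysS hfB hB g h (fac_one hC)

/-- The conclusion for the quotient by the center (which is trivial in this case). -/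
theorem quotE [Finite K] (h2 : (2 : K) = 0) (hK : 4 ≤ Nat.card K) :
    ∃ g : symplecticGroup (Fin 2) K ⧸ Subgroup.center (symplecticGroup (Fin 2) K),
      ∀ z : symplecticGroup (Fin 2) K ⧸ Subgroup.center (symplecticGroup (Fin 2) K),
        ∃ x y : symplecticGroup (Fin 2) K ⧸ Subgroup.center (symplecticGroup (Fin 2) K),
          IsConj g x ∧ IsConj g y ∧ x * y = z := by
  obtain ⟨x, h⟩ := main_even (K := K) h2 hK
  refine ⟨QuotientGroup.mk x, fun g => ?_⟩
  obtain ⟨g, rfl⟩ := QuotientGroup.mk_surjective g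
  obtain ⟨r, r', hg⟩ := h g
  refine ⟨QuotientGroup.mk (r * x * r⁻¹), QuotientGroup.mk (r' * x * r'⁻¹), ?_, ?_, ?_⟩
  · rw [isConj_iff]
    exact ⟨QuotientGroup.mk r, rfl⟩
  · rw [isConj_iff]
    exact ⟨QuotientGroup.mk r', rfl⟩
  · rw [hg]
    rfl

end ThW4
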